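import Mathlib

/-! A regular topology built from a monotone sequence of projections. -/

set_option autoImplicit false

noncomputable section

namespace Pool.Agent.Lib.MP_106cb8_an.Reg

open Set Filter Topology

variable {E : Type*} [NormedAddCommGroup E] [NormedSpace ℝ E]

/-- The hypotheses on the projections. -/
structure Proj (P : ℕ → E →L[ℝ] E) : Prop where
  zero : P 0 = 0
  le : ∀ n x, ‖P n x‖ ≤ ‖x‖
  comp : ∀ n m x, P n (P m x) = P (min n m) x
  lim : ∀ x, Tendsto (fun n => P n x) atTop (𝓝 x)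

variable (P : ℕ → E →L[ℝ] E) (U : Set E)

/-- The basic neighbourhood with data `N`, `t` at `y` lies in `U`. -/
def W (y : E) (N : ℕ) (t : ℝ) : Prop := ∀ z, ‖z‖ ≤ 1 + t → ‖P N z‖ ≤ t → y + z ∈ U

/-- Open sets. -/
def Op : Prop := ∀ x ∈ U, ∃ N t, 0 < t ∧ W P U x N t

/-- The admissible margin at `y`. -/
def d (y : E) : ℝ := sSup {t | 0 ≤ t ∧ t ≤ 1 ∧ ∃ N, W P U y N t}

/-- The head condition at the cut `m`. -/
def A (x : E) (m : ℕ) : Prop :=
  ∃ N t, d P U (P m x) / 2 < t ∧ W P U (P m x) N t ∧ ‖P N (x - P m x)‖ < d P U (P m x) / 4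

/-- Chains of cuts starting at `m`. -/
inductive T (x : E) : ℕ → Prop
  | last (m : ℕ) : A P U x m → ‖x - P m x‖ < 1 + d P U (P m x) / 4 → T x m
  | step (m m' : ℕ) : A P U x m → m < m' → ‖P m' x - P m x‖ < 1 + d P U (P m x) / 4 →
      T x m' → T x m

variable {P U}

theorem Proj.mono (h : Proj P) {n m : ℕ} (hnm : n ≤ m) (x : E) : ‖P n x‖ ≤ ‖P m x‖ := by
  have := h.le n (P m x)
  rwa [h.comp, min_eq_left hnm] at this

theorem W.anti {y : E} {N : ℕ} {t s : ℝ} (h : W P U y N t) (hs : s ≤ t) : W P U y N s :=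
  fun z a b => h z (by linarith) (by linarith)

theorem W.shift (hP : Proj P) {y : E} {N : ℕ} {t : ℝ} (h : W P U y N t) (y' : E) :
    W P U y' N (t - ‖y' - y‖) := fun z a b => by
  have := h (y' - y + z) (by linarith [norm_add_le (y' - y) z]) (by
    rw [map_add]
    linarith [norm_add_le (P N (y' - y)) (P N z), hP.le N (y' - y)])
  rwa [← add_assoc, add_sub_cancel] at this

theorem d_bdd (y : E) : BddAbove {t | 0 ≤ t ∧ t ≤ 1 ∧ ∃ N, W P U y N t} :=
  ⟨1, fun _ h => h.2.1⟩

theorem d_nonneg (y : E) : 0 ≤ d P U y := Real.sSup_nonneg fun _ h => h.1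

theorem d_pos (hU : Op P U) {y : E} (hy : y ∈ U) : 0 < d P U y := by
  obtain ⟨N, t, h0, h⟩ := hU y hy
  exact lt_of_lt_of_le (lt_min h0 one_pos) (le_csSup (d_bdd y)
    ⟨(lt_min h0 one_pos).le, min_le_right _ _, N, h.anti (min_le_left _ _)⟩)

theorem d_spec {y : E} {s : ℝ} (h0 : 0 ≤ s) (hs : s < d P U y) : ∃ N t, s < t ∧ W P U y N t := by
  by_contra h
  refine not_le.2 hs (Real.sSup_le (fun t ht => ?_) h0)
  obtain ⟨N, hN⟩ := ht.2.2
  exact not_lt.1 fun a => h ⟨N, t, a, hN⟩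

theorem d_lip (hP : Proj P) (y y' : E) : d P U y ≤ d P U y' + ‖y' - y‖ := by
  have h0 := d_nonneg (P := P) (U := U) y'
  refine Real.sSup_le (fun t ht => ?_) (by positivity)
  rcases le_total t ‖y' - y‖ with h | h
  · linarith
  · obtain ⟨N, hN⟩ := ht.2.2
    have := le_csSup (d_bdd y') ⟨sub_nonneg.2 h, by linarith [ht.2.1, norm_nonneg (y' - y)], N,
      hN.shift hP y'⟩
    rw [← d] at this
    linarith

theorem d_cont (hP : Proj P) : Continuous (d P U) :=
  (LipschitzWith.of_le_add fun y y' => by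
    rw [dist_comm, dist_eq_norm]
    exact d_lip hP y y').continuous

theorem A.key (hP : Proj P) {x : E} {m : ℕ} (h : A P U x m) {z y : E}
    (h1 : ‖z‖ < 1 + d P U (P m x) / 4) (h2 : ∀ N, ‖P N z‖ ≤ ‖P N (x - P m x)‖)
    (h3 : ‖y - (P m x + z)‖ ≤ d P U (P m x) / 4) : y ∈ U := by
  obtain ⟨N, t, a, b, c⟩ := h
  have := b (z + (y - (P m x + z))) (by linarith [norm_add_le z (y - (P m x + z))]) (by
    rw [map_add]
    linarith [norm_add_le (P N z) (P N (y - (P m x + z))), hP.le N (y - (P m x + z)), h2 N])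
  rwa [← add_assoc, add_sub_cancel] at this

theorem Proj.cut (hP : Proj P) {m n : ℕ} (h : m ≤ n) (x : E) :
    P n x - P m x = P n (x - P m x) := by
  rw [map_sub, hP.comp, min_eq_right h]

theorem Proj.swap (hP : Proj P) (N n : ℕ) (x : E) : ‖P N (P n x)‖ ≤ ‖P N x‖ := by
  rw [hP.comp]
  exact hP.mono (min_le_left _ _) x

theorem A.trunc (hP : Proj P) {x : E} {m n : ℕ} (h : A P U x m) (hn : m ≤ n) :
    A P U (P n x) m := by
  obtain ⟨N, t, a, b, c⟩ := h
  refine ⟨N, t, ?_⟩
  rw [hP.comp, min_eq_left hn, hP.cut hn]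
  exact ⟨a, b, (hP.swap N n _).trans_lt c⟩

theorem T.trunc (hP : Proj P) {x : E} {m : ℕ} (h : T P U x m) (n : ℕ) :
    m ≤ n → T P U (P n x) m := by
  induction h with
  | last m a b =>
    intro hn
    refine T.last m (a.trunc hP hn) ?_
    rw [hP.comp, min_eq_left hn, hP.cut hn]
    exact (hP.le n _).trans_lt b
  | step m m' a b c _ ih =>
    intro hn
    rcases le_total m' n with h | h
    · refine T.step m m' (a.trunc hP hn) b ?_ (ih h)
      rwa [hP.comp, hP.comp, min_eq_left hn, min_eq_left h]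
    · refine T.last m (a.trunc hP hn) ?_
      rw [hP.comp, min_eq_left hn, hP.cut hn]
      rw [hP.cut b.le] at c
      exact (hP.mono h _).trans_lt c

theorem T.head {x : E} {m : ℕ} (h : T P U x m) : A P U x m := by
  cases h <;> assumption

theorem near (hP : Proj P) {y : E} {m : ℕ} (h : 0 < d P U (P m y)) (f : E → E)
    (hf : Continuous f) (h0 : ‖f y‖ < d P U (P m y) / 4) :
    ∀ᶠ x in 𝓝 y, ‖f x‖ ≤ d P U (P m x) / 4 :=
  (hf.norm.continuousAt.eventually_lt
    (((d_cont hP).comp (P m).continuous).div_const 4).continuousAt h0).mono fun _ a => a.le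

theorem closure_step (hP : Proj P) (hU : Op P U) {y : E} (hy : y ∉ U) {m : ℕ}
    (h1 : P m y ∈ U) (h2 : ∃ᶠ x in 𝓝 y, T P U x m) :
    ∃ m', m < m' ∧ P m' y ∈ U ∧ ∃ᶠ x in 𝓝 y, T P U x m' := by
  have hd := d_pos hU h1
  obtain ⟨k, hk⟩ := eventually_atTop.1 (((hP.lim y).const_sub y).norm.eventually
    (gt_mem_nhds (show ‖y - y‖ < d P U (P m y) / 4 by simpa using hd)))
  have hmk : m ≤ max m k := le_max_left _ _
  have e1 := near hP hd (fun x => y - P (max m k) x) (by fun_prop) (hk _ (le_max_right _ _))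
  have e2 : ∀ᶠ x in 𝓝 y, ∀ n ∈ Finset.range (max m k),
      ‖P n y - P n x‖ ≤ d P U (P m x) / 4 :=
    (eventually_all_finset _).2 fun n _ =>
      near hP hd (fun x => P n y - P n x) (by fun_prop) (by simpa using hd)
  by_contra hc
  have e3 : ∀ᶠ x in 𝓝 y, ∀ n ∈ Finset.range (max m k), m < n → P n y ∈ U → ¬ T P U x n :=
    (eventually_all_finset _).2 fun n _ => by
      by_cases a : m < n ∧ P n y ∈ U
      · exact (not_frequently.1 fun b => hc ⟨n, a.1, a.2, b⟩).mono fun x b _ _ => b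
      · exact Eventually.of_forall fun x b c => absurd ⟨b, c⟩ a
  obtain ⟨x, hx, a1, a2, a3⟩ := (h2.and_eventually (e1.and (e2.and e3))).exists
  have fin : ‖P (max m k) (x - P m x)‖ < 1 + d P U (P m x) / 4 → False := fun b =>
    hy (hx.head.key hP b (fun N => hP.swap N _ _) (by rwa [← hP.cut hmk, add_sub_cancel]))
  cases hx with
  | last _ a b => exact fin ((hP.le _ _).trans_lt b)
  | step _ m' a b c e =>
    rw [hP.cut b.le] at c
    rcases le_or_gt (max m k) m' with h | h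
    · exact fin ((hP.mono h _).trans_lt c)
    · refine a3 m' (Finset.mem_range.2 h) b (a.key hP c (fun N => hP.swap N _ _) ?_) e
      rw [← hP.cut b.le, add_sub_cancel]
      exact a2 m' (Finset.mem_range.2 h)

theorem closure_sub (hP : Proj P) (hU : Op P U) (h0 : (0 : E) ∈ U) :
    closure {x | T P U x 0} ⊆ U := by
  intro y hy
  by_contra hn
  have h1 : ∀ n, ∃ m, n ≤ m ∧ P m y ∈ U ∧ ∃ᶠ x in 𝓝 y, T P U x m := fun n => by
    induction n with
    | zero => exact ⟨0, le_rfl, by simpa [hP.zero] using h0, mem_closure_iff_frequently.1 hy⟩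
    | succ n ih =>
      obtain ⟨m, a, b, c⟩ := ih
      obtain ⟨m', a', b'⟩ := closure_step hP hU hn b c
      exact ⟨m', by omega, b'⟩
  obtain ⟨k, hk⟩ := eventually_atTop.1 (((hP.lim y).const_sub y).norm.eventually
    (gt_mem_nhds (show ‖y - y‖ < 1 by simp)))
  obtain ⟨m, a, b, c⟩ := h1 k
  have hd := d_pos hU b
  have e1 := near hP hd (fun x => y - x) (by fun_prop) (by simpa using hd)
  have e2 : ∀ᶠ x in 𝓝 y, ‖x - P m x‖ < 1 :=
    (show Continuous fun x => ‖x - P m x‖ by fun_prop).continuousAt.eventually_lt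
      continuousAt_const (hk m a)
  obtain ⟨x, hx, a1, a2⟩ := (c.and_eventually (e1.and e2)).exists
  exact hn (hx.head.key hP (z := x - P m x) (by linarith [d_nonneg (P := P) (U := U) (P m x)])
    (fun N => le_rfl) (by rwa [add_sub_cancel]))

variable (P) in
/-- `p` holds on some basic neighbourhood of zero. -/
def Ev (p : E → Prop) : Prop := ∃ N t, 0 < t ∧ ∀ z, ‖z‖ ≤ 1 + t → ‖P N z‖ ≤ t → p z

theorem Ev.mono {p q : E → Prop} (h : Ev P p) (hpq : ∀ z, p z → q z) : Ev P q := by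
  obtain ⟨N, t, a, b⟩ := h
  exact ⟨N, t, a, fun z c e => hpq z (b z c e)⟩

theorem Ev.and (hP : Proj P) {p q : E → Prop} (h : Ev P p) (h' : Ev P q) :
    Ev P fun z => p z ∧ q z := by
  obtain ⟨N, t, a, b⟩ := h
  obtain ⟨N', t', a', b'⟩ := h'
  have h1 := min_le_left t t'
  have h2 := min_le_right t t'
  exact ⟨max N N', min t t', lt_min a a', fun z c e =>
    ⟨b z (by linarith) (by linarith [hP.mono (le_max_left N N') z]),
      b' z (by linarith) (by linarith [hP.mono (le_max_right N N') z])⟩⟩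

theorem Ev.proj {q : E → Prop} (x : E) (K : ℕ) (h : ∀ᶠ w in 𝓝 x, q w) :
    Ev P fun z => q (x + P K z) := by
  obtain ⟨ε, h0, h1⟩ := Metric.eventually_nhds_iff.1 h
  exact ⟨K, ε / 2, half_pos h0, fun z _ b => h1 (by
    rw [dist_eq_norm, add_sub_cancel_left]
    linarith)⟩

theorem Proj.add (hP : Proj P) {m K : ℕ} (h : m ≤ K) (x z : E) :
    P m (x + P K z) = P m (x + z) := by
  rw [map_add, map_add, hP.comp, min_eq_left h]

theorem A.ev (hP : Proj P) {x : E} {m : ℕ} (h : A P U x m) : Ev P fun z => A P U (x + z) m := by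
  obtain ⟨N, t, a, b, c⟩ := h
  have hc := (d_cont (U := U) hP).comp (P m).continuous
  have e1 : ∀ᶠ w in 𝓝 x, d P U (P m w) / 2 < t - ‖P m w - P m x‖ :=
    (hc.div_const 2).continuousAt.eventually_lt
      (show Continuous fun w => t - ‖P m w - P m x‖ by fun_prop).continuousAt (by simpa using a)
  have e2 : ∀ᶠ w in 𝓝 x, ‖P N w - P N (P m w)‖ < d P U (P m w) / 4 :=
    (show Continuous fun w => ‖P N w - P N (P m w)‖ by fun_prop).continuousAt.eventually_lt
      (hc.div_const 4).continuousAt (by rwa [map_sub] at c)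
  refine (Ev.proj x (max N m) (e1.and e2)).mono fun z hz => ?_
  rw [hP.add (le_max_right N m), hP.add (le_max_left N m), ← map_sub (P N)] at hz
  exact ⟨N, _, hz.1, b.shift hP _, hz.2⟩

theorem block_ev (hP : Proj P) {x : E} {m m' : ℕ} (h : m ≤ m')
    (c : ‖P m' x - P m x‖ < 1 + d P U (P m x) / 4) :
    Ev P fun z => ‖P m' (x + z) - P m (x + z)‖ < 1 + d P U (P m (x + z)) / 4 := by
  have e1 : ∀ᶠ w in 𝓝 x, ‖P m' w - P m w‖ < 1 + d P U (P m w) / 4 :=
    (show Continuous fun w => ‖P m' w - P m w‖ by fun_prop).continuousAt.eventually_lt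
      ((((d_cont hP).comp (P m).continuous).div_const 4).const_add 1).continuousAt c
  refine (Ev.proj x m' e1).mono fun z hz => ?_
  rwa [hP.add h, hP.add le_rfl] at hz

theorem tail_ev (hP : Proj P) (hU : Op P U) {x : E} (hx : x ∈ U) (n : ℕ) :
    ∃ M, n ≤ M ∧ Ev P fun z => T P U (x + z) M := by
  have hd := d_pos hU hx
  obtain ⟨N, t, a, b⟩ := d_spec (P := P) (U := U) (y := x) (s := 3 / 4 * d P U x)
    (by positivity) (by linarith)
  obtain ⟨k, hk⟩ := eventually_atTop.1 (((hP.lim x).const_sub x).norm.eventually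
    (gt_mem_nhds (show ‖x - x‖ < d P U x / 32 by simpa using hd)))
  obtain ⟨M, m1, m2, m3⟩ : ∃ M, n ≤ M ∧ N ≤ M ∧ k ≤ M := ⟨n + N + k, by omega, by omega, by omega⟩
  refine ⟨M, m1, M, d P U x / 32, by positivity, fun z z1 z2 => ?_⟩
  have h1 := hk M m3
  have h2 : ‖P M (x + z) - x‖ ≤ d P U x / 16 := by
    rw [map_add, add_sub_right_comm]
    linarith [norm_add_le (P M x - x) (P M z), norm_sub_rev (P M x) x]
  have h3 := d_lip (U := U) hP x (P M (x + z))
  have h4 := d_lip (U := U) hP (P M (x + z)) x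
  rw [norm_sub_rev] at h4
  refine T.last M ⟨N, _, by linarith, b.shift hP _, ?_⟩ ?_
  · rw [map_sub, hP.comp, min_eq_left m2, sub_self, norm_zero]
    linarith
  · rw [add_sub_right_comm]
    linarith [norm_add_le (x - P M (x + z)) z, norm_sub_rev x (P M (x + z))]

theorem T.ev (hP : Proj P) (hU : Op P U) {x : E} (hx : x ∈ U) {m : ℕ} (h : T P U x m) :
    Ev P fun z => T P U (x + z) m := by
  induction h with
  | last m a b =>
    obtain ⟨M, m1, e⟩ := tail_ev hP hU hx (m + 1)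
    have c : ‖P M x - P m x‖ < 1 + d P U (P m x) / 4 := by
      rw [hP.cut (by omega)]
      exact (hP.le _ _).trans_lt b
    exact (((a.ev hP).and hP (block_ev hP (by omega) c)).and hP e).mono fun z hz =>
      T.step m M hz.1.1 (by omega) hz.1.2 hz.2
  | step m m' a b c _ ih =>
    exact (((a.ev hP).and hP (block_ev hP b.le c)).and hP ih).mono fun z hz =>
      T.step m m' hz.1.1 b hz.1.2 hz.2

theorem op_compl (hP : Proj P) {V : Set E} (hV : ∀ x ∈ V, ∀ n, P n x ∈ V) :
    Op P (closure V)ᶜ := by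
  intro y hy
  obtain ⟨ε, h0, h1⟩ := Metric.isOpen_iff.1 isClosed_closure.isOpen_compl y hy
  obtain ⟨k, hk⟩ := eventually_atTop.1 (((hP.lim y).sub_const y).norm.eventually
    (gt_mem_nhds (show ‖y - y‖ < ε / 2 by simpa using h0)))
  refine ⟨k, ε / 2, half_pos h0, fun z _ b c => h1 (a := P k (y + z)) ?_
    (map_mem_closure (P k).continuous c fun x hx => hV x hx k)⟩
  rw [mem_ball_iff_norm, map_add, add_sub_right_comm]
  linarith [norm_add_le (P k y - y) (P k z), hk k le_rfl]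

theorem regular_zero (hP : Proj P) (hU : Op P U) (h0 : (0 : E) ∈ U) :
    ∃ V V' : Set E, Op P V ∧ Op P V' ∧ (0 : E) ∈ V ∧ Uᶜ ⊆ V' ∧ Disjoint V V' := by
  have hs := closure_sub hP hU h0
  have hd := d_pos hU h0
  refine ⟨{x | T P U x 0}, (closure {x | T P U x 0})ᶜ,
    fun x hx => T.ev hP hU (hs (subset_closure hx)) hx,
    op_compl hP fun x hx n => T.trunc hP hx n (Nat.zero_le n), ?_, compl_subset_compl.2 hs,
    disjoint_compl_right_iff_subset.2 subset_closure⟩
  obtain ⟨N, t, a, b⟩ := d_spec (P := P) (U := U) (y := 0) (s := d P U 0 / 2)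
    (by positivity) (by linarith)
  refine T.last 0 ⟨N, t, ?_⟩ ?_ <;> simp only [map_zero, sub_self, norm_zero]
  · exact ⟨a, b, by linarith⟩
  · linarith

theorem Op.shift (hU : Op P U) (a : E) : Op P {x | a + x ∈ U} := fun x hx => by
  obtain ⟨N, t, h0, h⟩ := hU _ hx
  exact ⟨N, t, h0, fun z b c => by simpa only [mem_ofPred_eq, add_assoc] using h z b c⟩

theorem regular (hP : Proj P) (hU : Op P U) {x : E} (hx : x ∈ U) :
    ∃ V V' : Set E, Op P V ∧ Op P V' ∧ x ∈ V ∧ Uᶜ ⊆ V' ∧ Disjoint V V' := by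
  obtain ⟨V, V', a, b, c, e, f⟩ := regular_zero hP (hU.shift x) (by simpa using hx)
  refine ⟨{y | -x + y ∈ V}, {y | -x + y ∈ V'}, a.shift _, b.shift _, by simpa using c,
    fun y hy => e (by simpa using hy), ?_⟩
  exact disjoint_left.2 fun y g h => disjoint_left.1 f g h

end Pool.Agent.Lib.MP_106cb8_an.Reg
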