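import Pool.Agent.Lib.MP_106cb8_an.Reg

/-! The modular attached to a monotone sequence of projections. -/

set_option autoImplicit false

noncomputable section

namespace Pool.Agent.Lib.MP_106cb8_an.Reg

open Set Filter Topology

variable {E : Type*} [NormedAddCommGroup E] [NormedSpace ℝ E] {P : ℕ → E →L[ℝ] E}

variable (P) in
/-- The weak norm. -/
def q (x : E) : ℝ := ∑' n, ‖P n x‖ / 2 ^ n

variable (P) in
/-- The real-valued modular. -/
def r (x : E) : ℝ := q P x + max (‖x‖ - 1) 0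

theorem term_le (hP : Proj P) (N n : ℕ) (x : E) :
    ‖P n x‖ / 2 ^ n ≤ ‖P N x‖ * (1 / 2) ^ n + (3 / 4) ^ N * ‖x‖ * (2 / 3) ^ n := by
  rw [div_eq_mul_one_div, ← one_div_pow]
  rcases le_total n N with h | h
  · exact le_add_of_le_of_nonneg (mul_le_mul_of_nonneg_right (hP.mono h x) (by positivity))
      (by positivity)
  · refine le_add_of_nonneg_of_le (by positivity) ?_
    calc _ ≤ ‖x‖ * ((3 / 4) ^ n * (2 / 3) ^ n) := by
          rw [← mul_pow, show (3 / 4 * (2 / 3) : ℝ) = 1 / 2 by norm_num]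
          exact mul_le_mul_of_nonneg_right (hP.le n x) (by positivity)
      _ ≤ ‖x‖ * ((3 / 4) ^ N * (2 / 3) ^ n) := by
          gcongr _ * (?_ * _)
          exact pow_le_pow_of_le_one (by norm_num) (by norm_num) h
      _ = _ := by ring

theorem has_bound (a b : ℝ) :
    HasSum (fun n : ℕ => a * (1 / 2) ^ n + b * (2 / 3) ^ n) (a * 2 + b * 3) := by
  have h := hasSum_geometric_of_lt_one (r := 2 / 3) (by norm_num) (by norm_num)
  rw [show (1 - 2 / 3 : ℝ)⁻¹ = 3 by norm_num] at h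
  exact (hasSum_geometric_two.mul_left a).add (h.mul_left b)

theorem summ (hP : Proj P) (x : E) : Summable fun n => ‖P n x‖ / 2 ^ n :=
  Summable.of_nonneg_of_le (fun _ => by positivity) (fun n => term_le hP 0 n x)
    (has_bound _ _).summable

theorem q_le (hP : Proj P) (N : ℕ) (x : E) : q P x ≤ ‖P N x‖ * 2 + (3 / 4) ^ N * ‖x‖ * 3 :=
  hasSum_le (fun n => term_le hP N n x) (summ hP x).hasSum (has_bound _ _)

theorem le_q (hP : Proj P) (N : ℕ) (x : E) : ‖P N x‖ / 2 ^ N ≤ q P x :=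
  (summ hP x).le_tsum N fun _ _ => by positivity

theorem q_nonneg (x : E) : 0 ≤ q P x := tsum_nonneg fun _ => by positivity

theorem r_nonneg (x : E) : 0 ≤ r P x := add_nonneg (q_nonneg x) (le_max_right _ _)

theorem q_smul (a : ℝ) (x : E) : q P (a • x) = |a| * q P x := by
  simp only [q, map_smul, norm_smul, Real.norm_eq_abs, mul_div_assoc, tsum_mul_left]

theorem q_add (hP : Proj P) (x y : E) : q P (x + y) ≤ q P x + q P y := by
  refine hasSum_le (fun n => ?_) (summ hP _).hasSum ((summ hP x).hasSum.add (summ hP y).hasSum)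
  rw [map_add, ← add_div]
  exact div_le_div_of_nonneg_right (norm_add_le _ _) (by positivity)

theorem r_eq_zero (hP : Proj P) (x : E) : r P x ≤ 0 ↔ x = 0 := by
  refine ⟨fun h => ?_, fun h => by simp [h, r, q]⟩
  have h1 : ∀ n, P n x = 0 := fun n => by
    rw [r] at h
    have h2 : ‖P n x‖ / 2 ^ n ≤ 0 := by linarith [le_q hP n x, le_max_right (‖x‖ - 1) 0]
    rwa [div_le_iff₀ (by positivity), zero_mul, norm_le_zero_iff] at h2
  have h2 := hP.lim x
  simp only [h1] at h2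
  exact tendsto_nhds_unique h2 tendsto_const_nhds

theorem r_smul {a : ℝ} (ha : |a| = 1) (x : E) : r P (a • x) = r P x := by
  rw [r, r, q_smul, norm_smul, Real.norm_eq_abs, ha, one_mul, one_mul]

theorem r_convex (hP : Proj P) {a : ℝ} (h0 : 0 ≤ a) (h1 : a ≤ 1) (x y : E) :
    r P (a • x + (1 - a) • y) ≤ a * r P x + (1 - a) * r P y := by
  have h2 := sub_nonneg.2 h1
  have a1 := q_add hP (a • x) ((1 - a) • y)
  have a2 := norm_add_le (a • x) ((1 - a) • y)
  rw [q_smul, q_smul, abs_of_nonneg h0, abs_of_nonneg h2] at a1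
  rw [norm_smul, norm_smul, Real.norm_of_nonneg h0, Real.norm_of_nonneg h2] at a2
  have b1 := mul_le_mul_of_nonneg_left (le_max_left (‖x‖ - 1) 0) h0
  have b2 := mul_le_mul_of_nonneg_left (le_max_left (‖y‖ - 1) 0) h2
  have b3 := mul_nonneg h0 (le_max_right (‖x‖ - 1) 0)
  have b4 := mul_nonneg h2 (le_max_right (‖y‖ - 1) 0)
  have b5 : max (‖a • x + (1 - a) • y‖ - 1) 0 ≤
      a * max (‖x‖ - 1) 0 + (1 - a) * max (‖y‖ - 1) 0 := max_le (by linarith) (by linarith)
  unfold r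
  linarith

theorem r_cont (x : E) : Continuous fun l : ℝ => r P (l • x) := by
  simp only [r, q_smul]
  fun_prop

theorem r_null (hP : Proj P) {z : ℕ → E} {t : ℕ → ℝ} (ht : Tendsto t atTop (𝓝 0))
    (h0 : ∀ n, 0 ≤ t n) (h1 : ∀ n, ‖z n‖ ≤ 1 + t n) (h2 : ∀ n, ‖P n (z n)‖ ≤ t n) :
    Tendsto (fun n => r P (z n)) atTop (𝓝 0) := by
  have h3 := ((ht.mul_const 2).add (((tendsto_pow_atTop_nhds_zero_of_lt_one (r := (3 / 4 : ℝ))
    (by norm_num) (by norm_num)).mul (ht.const_add 1)).mul_const 3)).add ht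
  simp only [zero_mul, add_zero] at h3
  refine squeeze_zero (fun n => r_nonneg _) (fun n => add_le_add ((q_le hP n _).trans ?_)
    (max_le (by linarith [h1 n]) (h0 n))) h3
  gcongr
  · exact h2 n
  · exact h1 n

theorem op_iff (hP : Proj P) (U : Set E) : Op P U ↔ ∀ (x : ℕ → E) (y : E), (∀ j, x j ∉ U) →
    Tendsto (fun j => r P (x j - y)) atTop (𝓝 0) → y ∉ U := by
  constructor
  · intro h x y hx hr hy
    obtain ⟨N, t, h0, h1⟩ := h y hy
    obtain ⟨j, hj⟩ := (hr.eventually (gt_mem_nhds (show 0 < t / 2 ^ N by positivity))).exists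
    have a1 := le_q hP N (x j - y)
    have a2 := q_nonneg (P := P) (x j - y)
    have a3 : t / 2 ^ N ≤ t := div_le_self h0.le (one_le_pow₀ (by norm_num))
    have a4 := le_max_left (‖x j - y‖ - 1) 0
    have a5 := le_max_right (‖x j - y‖ - 1) 0
    rw [r] at hj
    have := h1 (x j - y) (by linarith) ((div_le_div_iff_of_pos_right
      (show (0 : ℝ) < 2 ^ N by positivity)).1 (by linarith))
    rw [add_sub_cancel] at this
    exact hx j this
  · intro h y hy
    by_contra hc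
    have h1 : ∀ n : ℕ, ∃ z, ‖z‖ ≤ 1 + 1 / ((n : ℝ) + 1) ∧ ‖P n z‖ ≤ 1 / ((n : ℝ) + 1) ∧
        y + z ∉ U := fun n => by
      by_contra a
      exact hc ⟨n, 1 / ((n : ℝ) + 1), by positivity, fun z b c => by
        by_contra e
        exact a ⟨z, b, c, e⟩⟩
    choose z a b c using h1
    refine h (fun n => y + z n) y c ?_ hy
    simp only [add_sub_cancel_left]
    exact r_null hP tendsto_one_div_add_atTop_nhds_zero_nat (fun n => by positivity) a b

theorem no_delta (hP : Proj P) (hk : ∀ n, ∃ x, x ≠ 0 ∧ P n x = 0) :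
    ∃ x : ℕ → E, Tendsto (fun j => r P (x j)) atTop (𝓝 0) ∧ ∀ j, 1 ≤ r P ((2 : ℝ) • x j) := by
  choose x a b using hk
  have h1 : ∀ n, ‖‖x n‖⁻¹ • x n‖ = 1 := fun n => norm_smul_inv_norm (a n)
  refine ⟨fun n => ‖x n‖⁻¹ • x n, r_null hP (t := fun _ => 0) tendsto_const_nhds
    (fun _ => le_rfl) (fun n => by rw [h1, add_zero]) (fun n => by simp [b n]), fun j => ?_⟩
  have h2 := le_max_left (‖(2 : ℝ) • ‖x j‖⁻¹ • x j‖ - 1) 0
  have h3 := q_nonneg (P := P) ((2 : ℝ) • ‖x j‖⁻¹ • x j)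
  have h4 : ‖(2 : ℝ) • ‖x j‖⁻¹ • x j‖ = 2 := by rw [norm_smul, h1]; simp
  unfold r
  linarith

end Pool.Agent.Lib.MP_106cb8_an.Reg
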