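import Mathlib

set_option autoImplicit false

open Set Filter Topology
open scoped ENNReal

namespace Pool.Agent.Lib.MP_106cb8_an

section Defs

variable {X : Type*} [AddCommGroup X] [Module ℝ X]

/-- `ρ` is a convex modular on the real vector space `X`. -/
def IsConvexModular (ρ : X → ℝ≥0∞) : Prop :=
  (∀ u : X, ρ u = 0 ↔ u = 0) ∧
  (∀ (α : ℝ) (u : X), |α| = 1 → ρ (α • u) = ρ u) ∧
  (∀ (α : ℝ) (u v : X), 0 ≤ α → α ≤ 1 →
    ρ (α • u + (1 - α) • v) ≤ ENNReal.ofReal α * ρ u + ENNReal.ofReal (1 - α) * ρ v)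

/-- `ρ` is left-continuous. -/
def IsLeftContinuous (ρ : X → ℝ≥0∞) : Prop :=
  ∀ (u : X) (l₀ : ℝ), 0 < l₀ → Tendsto (fun l : ℝ => ρ (l • u)) (𝓝[<] l₀) (𝓝 (ρ (l₀ • u)))

/-- The modular space `X_ρ`. -/
def modularSpace (ρ : X → ℝ≥0∞) : Set X := {v | ∃ l : ℝ, 0 < l ∧ ρ (l • v) < ⊤}

/-- `C` is a `ρ`-closed subset of the modular space. -/
def IsModClosed (ρ : X → ℝ≥0∞) (C : Set X) : Prop :=
  C ⊆ modularSpace ρ ∧ ∀ (x : ℕ → X) (y : X), (∀ j, x j ∈ C) → y ∈ modularSpace ρ →
    Tendsto (fun j => ρ (x j - y)) atTop (𝓝 0) → y ∈ C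

/-- `U` is an open subset of the modular space for the modular topology. -/
def IsModOpen (ρ : X → ℝ≥0∞) (U : Set X) : Prop :=
  U ⊆ modularSpace ρ ∧ IsModClosed ρ (modularSpace ρ \ U)

end Defs

/-- The variable exponent modular `∑ |a n| ^ p n` on real sequences. -/
noncomputable def seqModular (p : ℕ → ℝ) (a : ℕ → ℝ) : ℝ≥0∞ :=
  ∑' n, ENNReal.ofReal (|a n| ^ p n)

theorem convexModular (p : ℕ → ℝ) (hp : ∀ n, 1 ≤ p n) : IsConvexModular (seqModular p) := by
  refine ⟨fun u => ?_, fun α u hα => ?_, fun α u v h0 h1 => ?_⟩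
  · simp only [seqModular, ENNReal.tsum_eq_zero, ENNReal.ofReal_eq_zero]
    constructor
    · intro h
      funext n
      by_contra hne
      have : 0 < |u n| ^ p n := Real.rpow_pos_of_pos (abs_pos.2 hne) _
      linarith [h n]
    · rintro rfl n
      have : p n ≠ 0 := by linarith [hp n]
      simp [Real.zero_rpow this]
  · simp only [seqModular, Pi.smul_apply, smul_eq_mul, abs_mul, hα, one_mul]
  · simp only [seqModular]
    rw [← ENNReal.tsum_mul_left, ← ENNReal.tsum_mul_left, ← ENNReal.tsum_add]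
    refine ENNReal.tsum_le_tsum fun n => ?_
    have h1' : 0 ≤ 1 - α := by linarith
    rw [← ENNReal.ofReal_mul h0, ← ENNReal.ofReal_mul h1', ← ENNReal.ofReal_add
      (by positivity) (by positivity)]
    refine ENNReal.ofReal_le_ofReal ?_
    have e1 : |(α • u + (1 - α) • v) n| ≤ α * |u n| + (1 - α) * |v n| := by
      simp only [Pi.add_apply, Pi.smul_apply, smul_eq_mul]
      refine (abs_add_le _ _).trans ?_
      rw [abs_mul, abs_mul, abs_of_nonneg h0, abs_of_nonneg h1']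
    have e2 := (convexOn_rpow (hp n)).2 (mem_Ici.2 (abs_nonneg (u n)))
      (mem_Ici.2 (abs_nonneg (v n))) h0 h1' (by ring)
    simp only [smul_eq_mul] at e2
    exact (Real.rpow_le_rpow (abs_nonneg _) e1 (by linarith [hp n])).trans e2

theorem leftContinuous (p : ℕ → ℝ) (hp : ∀ n, 1 ≤ p n) : IsLeftContinuous (seqModular p) := by
  intro u l₀ hl₀
  have hlsc : LowerSemicontinuous fun l : ℝ => seqModular p (l • u) := by
    unfold seqModular
    refine lowerSemicontinuous_tsum fun n => Continuous.lowerSemicontinuous ?_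
    refine ENNReal.continuous_ofReal.comp ?_
    refine Continuous.rpow_const ?_ fun _ => Or.inr (by linarith [hp n])
    simp only [Pi.smul_apply, smul_eq_mul]
    fun_prop
  refine tendsto_order.2 ⟨fun a ha => ?_, fun b hb => ?_⟩
  · exact (hlsc l₀ a ha).filter_mono nhdsWithin_le_nhds
  · filter_upwards [Ioo_mem_nhdsLT hl₀] with l hl
    refine lt_of_le_of_lt ?_ hb
    refine ENNReal.tsum_le_tsum fun n => ENNReal.ofReal_le_ofReal ?_
    refine Real.rpow_le_rpow (abs_nonneg _) ?_ (by linarith [hp n])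
    simp only [Pi.smul_apply, smul_eq_mul, abs_mul]
    refine mul_le_mul_of_nonneg_right ?_ (abs_nonneg _)
    rw [abs_of_pos hl.1, abs_of_pos hl₀]
    exact hl.2.le

section Main

variable {p : ℕ → ℝ} {φ : ℕ → ℕ}

/-- spread a sequence along the coordinates `φ i` -/
noncomputable def spread (φ : ℕ → ℕ) (a : ℕ → ℝ) : ℕ → ℝ := Function.extend φ a 0

theorem spread_apply (hφ : Function.Injective φ) (a : ℕ → ℝ) (i : ℕ) :
    spread φ a (φ i) = a i := hφ.extend_apply _ _ _

theorem spread_of_not_mem (a : ℕ → ℝ) {n : ℕ} (hn : ¬ ∃ i, φ i = n) : spread φ a n = 0 := by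
  simp [spread, Function.extend_apply' _ _ _ hn]

theorem spread_sub (hφ : Function.Injective φ) (a b : ℕ → ℝ) :
    spread φ a - spread φ b = spread φ (a - b) := by
  funext n
  by_cases hn : ∃ i, φ i = n
  · obtain ⟨i, rfl⟩ := hn
    simp [spread_apply hφ]
  · simp [spread_of_not_mem _ hn]

theorem smul_spread (hφ : Function.Injective φ) (l : ℝ) (a : ℕ → ℝ) :
    l • spread φ a = spread φ (l • a) := by
  funext n
  by_cases hn : ∃ i, φ i = n
  · obtain ⟨i, rfl⟩ := hn
    simp [spread_apply hφ]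
  · simp [spread_of_not_mem _ hn]

theorem small (hp : ∀ n, 1 ≤ p n) (hφ : Function.Injective φ) (hq : ∀ i : ℕ, (i : ℝ) ≤ p (φ i))
    (b : ℕ → ℝ) (N : ℕ) (hb : ∀ i, |b i| ≤ 2 / 3) (h0 : ∀ i < N, b i = 0) :
    seqModular p (spread φ b) ≤ ENNReal.ofReal (3 * (2 / 3) ^ N) := by
  have e1 : seqModular p (spread φ b) = ∑' i, ENNReal.ofReal (|b i| ^ p (φ i)) := by
    unfold seqModular
    rw [← hφ.tsum_eq]
    · simp only [spread_apply hφ]
    · intro n hn
      by_contra hh
      apply hn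
      have : p n ≠ 0 := by linarith [hp n]
      simp [spread_of_not_mem b hh, Real.zero_rpow this]
  rw [e1]
  have e2 : ∀ i, ENNReal.ofReal (|b i| ^ p (φ i)) ≤
      ENNReal.ofReal (if i < N then 0 else (2 / 3 : ℝ) ^ i) := by
    intro i
    refine ENNReal.ofReal_le_ofReal ?_
    split_ifs with h
    · have : p (φ i) ≠ 0 := by linarith [hp (φ i)]
      simp [h0 i h, Real.zero_rpow this]
    · calc |b i| ^ p (φ i) ≤ (2 / 3 : ℝ) ^ p (φ i) :=
            Real.rpow_le_rpow (abs_nonneg _) (hb i) (by linarith [hp (φ i)])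
        _ ≤ (2 / 3 : ℝ) ^ (i : ℝ) :=
            Real.rpow_le_rpow_of_exponent_ge (by norm_num) (by norm_num) (hq i)
        _ = (2 / 3 : ℝ) ^ i := Real.rpow_natCast _ _
  refine (ENNReal.tsum_le_tsum e2).trans ?_
  have hs : HasSum (fun i : ℕ => if i < N then (0 : ℝ) else (2 / 3 : ℝ) ^ i)
      (3 * (2 / 3) ^ N) := by
    rw [← hasSum_nat_add_iff' N]
    have h1 : ∑ i ∈ Finset.range N, (if i < N then (0 : ℝ) else (2 / 3 : ℝ) ^ i) = 0 :=
      Finset.sum_eq_zero fun i hi => if_pos (Finset.mem_range.1 hi)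
    rw [h1, sub_zero]
    have h2 := (hasSum_geometric_of_lt_one (r := (2 / 3 : ℝ)) (by norm_num)
      (by norm_num)).mul_right ((2 / 3 : ℝ) ^ N)
    have h3 : (fun n : ℕ => if n + N < N then (0 : ℝ) else (2 / 3 : ℝ) ^ (n + N)) =
        fun i => (2 / 3 : ℝ) ^ i * (2 / 3 : ℝ) ^ N := by
      funext i
      rw [if_neg (by omega), pow_add]
    have h4 : (3 : ℝ) * (2 / 3 : ℝ) ^ N = (1 - 2 / 3)⁻¹ * (2 / 3) ^ N := by norm_num
    rw [h3, h4]
    exact h2
  rw [← ENNReal.ofReal_tsum_of_nonneg (fun i => by split_ifs <;> positivity) hs.summable,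
    hs.tsum_eq]

theorem tendsto_small :
    Tendsto (fun N : ℕ => ENNReal.ofReal (3 * (2 / 3 : ℝ) ^ N)) atTop (𝓝 0) := by
  have h := (tendsto_pow_atTop_nhds_zero_of_lt_one (r := (2 / 3 : ℝ)) (by norm_num)
    (by norm_num)).const_mul 3
  simpa using ENNReal.tendsto_ofReal h

theorem mem_space (hp : ∀ n, 1 ≤ p n) (hφ : Function.Injective φ)
    (hq : ∀ i : ℕ, (i : ℝ) ≤ p (φ i)) (a : ℕ → ℝ) (ha : ∀ i, |a i| ≤ 4 / 3) :
    spread φ a ∈ modularSpace (seqModular p) := by
  refine ⟨1 / 2, by norm_num, ?_⟩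
  rw [smul_spread hφ]
  refine lt_of_le_of_lt (small hp hφ hq _ 0 (fun i => ?_) (by simp)) ENNReal.ofReal_lt_top
  simp only [Pi.smul_apply, smul_eq_mul, abs_mul]
  rw [abs_of_pos (by norm_num : (0 : ℝ) < 1 / 2)]
  linarith [ha i]

theorem coord_le (a : ℕ → ℝ) (n : ℕ) :
    ENNReal.ofReal (|a n| ^ p n) ≤ seqModular p a :=
  ENNReal.le_tsum (f := fun n => ENNReal.ofReal (|a n| ^ p n)) n

theorem abs_lt_one (hp : ∀ n, 1 ≤ p n) {a : ℕ → ℝ} (h : seqModular p a < 1) (n : ℕ) :
    |a n| < 1 := by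
  have h1 := lt_of_le_of_lt (coord_le (p := p) a n) h
  rw [ENNReal.ofReal_lt_one] at h1
  by_contra hh
  push Not at hh
  have := Real.one_le_rpow hh (by linarith [hp n] : 0 ≤ p n)
  linarith

theorem tendsto_coord (hp : ∀ n, 1 ≤ p n) {x : ℕ → ℕ → ℝ} {y : ℕ → ℝ}
    (h : Tendsto (fun j => seqModular p (x j - y)) atTop (𝓝 0)) (n : ℕ) :
    Tendsto (fun j => x j n) atTop (𝓝 (y n)) := by
  rw [Metric.tendsto_nhds]
  intro ε hε
  have hpos : 0 < ENNReal.ofReal (ε ^ p n) := ENNReal.ofReal_pos.2 (Real.rpow_pos_of_pos hε _)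
  filter_upwards [(tendsto_order.1 h).2 _ hpos] with j hj
  have h1 := lt_of_le_of_lt (coord_le (p := p) (x j - y) n) hj
  rw [ENNReal.ofReal_lt_ofReal_iff (Real.rpow_pos_of_pos hε _)] at h1
  rw [Real.dist_eq]
  by_contra hh
  push Not at hh
  have := Real.rpow_le_rpow hε.le hh (by linarith [hp n] : 0 ≤ p n)
  simp only [Pi.sub_apply] at h1
  linarith

/-- the points of the closed set -/
noncomputable def pt (k : ℕ) (c : ℕ → Bool) (i : ℕ) : ℝ :=
  if i < k then (if c i then 2 / 3 else 0) else (if (k + 1) ∣ i then 4 / 3 else -(2 / 3))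

theorem abs_pt_le (k : ℕ) (c : ℕ → Bool) (i : ℕ) : |pt k c i| ≤ 4 / 3 := by
  unfold pt
  split_ifs <;> rw [abs_le] <;> constructor <;> norm_num

theorem same_length (hp : ∀ n, 1 ≤ p n) (hφ : Function.Injective φ) {k k' : ℕ}
    {c c' : ℕ → Bool} {y : ℕ → ℝ} (h : seqModular p (spread φ (pt k c) - y) < 1)
    (h' : seqModular p (spread φ (pt k' c') - y) < 1) : ¬ k < k' := by
  intro hk
  set i := (k + 1) + (k' + 1) * (k + 1) with hi
  have e1 := abs_lt_one hp h (φ i)
  have e2 := abs_lt_one hp h' (φ i)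
  simp only [Pi.sub_apply, spread_apply hφ] at e1 e2
  have i1 : ¬ i < k := by rw [hi]; nlinarith
  have i2 : ¬ i < k' := by rw [hi]; nlinarith
  have d1 : (k + 1) ∣ i := by rw [hi]; exact Dvd.dvd.add dvd_rfl (Dvd.intro_left _ rfl)
  have d2 : ¬ (k' + 1) ∣ i := by
    rw [hi]
    intro hd
    have := (Nat.dvd_add_left (Dvd.intro _ rfl)).1 hd
    have := Nat.le_of_dvd (by omega) this
    omega
  simp only [pt, if_neg i1, if_neg i2, if_pos d1, if_neg d2] at e1 e2
  rw [abs_lt] at e1 e2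
  linarith [e1.2, e2.1]

theorem closed_F (hp : ∀ n, 1 ≤ p n) (hφ : Function.Injective φ)
    (hq : ∀ i : ℕ, (i : ℝ) ≤ p (φ i)) :
    IsModClosed (seqModular p) {x | ∃ k c, x = spread φ (pt k c)} := by
  classical
  refine ⟨?_, fun x y hx _ hlim => ?_⟩
  · rintro _ ⟨k, c, rfl⟩
    exact mem_space hp hφ hq _ (abs_pt_le k c)
  choose k c hx using hx
  obtain ⟨J, hJ⟩ := eventually_atTop.1 ((tendsto_order.1 hlim).2 1 one_pos)
  have hk : ∀ j ≥ J, k j = k J := by
    intro j hj
    have a1 := hJ j hj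
    have a2 := hJ J le_rfl
    rw [hx] at a1 a2
    have b1 := same_length hp hφ a1 a2
    have b2 := same_length hp hφ a2 a1
    omega
  refine ⟨k J, fun i => decide (y (φ i) = 2 / 3), ?_⟩
  funext n
  have hn := tendsto_coord hp hlim n
  by_cases hr : ∃ i, φ i = n
  · obtain ⟨i, rfl⟩ := hr
    rw [spread_apply hφ]
    by_cases hi : i < k J
    · have hcl : IsClosed ({0, 2 / 3} : Set ℝ) := (Set.toFinite _).isClosed
      have : y (φ i) ∈ ({0, 2 / 3} : Set ℝ) := by
        refine hcl.mem_of_tendsto hn (eventually_atTop.2 ⟨J, fun j hj => ?_⟩)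
        rw [hx, spread_apply hφ, hk j hj]
        simp only [pt, if_pos hi]
        split_ifs <;> simp
      simp only [pt, if_pos hi, decide_eq_true_eq]
      split_ifs with h
      · exact h
      · rcases this with h0 | h0
        · exact h0
        · exact absurd h0 h
    · refine tendsto_nhds_unique hn (tendsto_const_nhds.congr' (eventually_atTop.2
        ⟨J, fun j hj => ?_⟩))
      simp only
      rw [hx, spread_apply hφ, hk j hj]
      simp only [pt, if_neg hi]
  · rw [spread_of_not_mem _ hr]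
    refine tendsto_nhds_unique hn (tendsto_const_nhds.congr fun j => ?_)
    rw [hx, spread_of_not_mem _ hr]

theorem open_nbhd (hp : ∀ n, 1 ≤ p n) (hφ : Function.Injective φ)
    (hq : ∀ i : ℕ, (i : ℝ) ≤ p (φ i)) {U : Set (ℕ → ℝ)} (hU : IsModOpen (seqModular p) U)
    (d : ℕ → ℝ) (hd : ∀ i, |d i| ≤ 2 / 3) (hdU : spread φ d ∈ U) :
    ∃ k : ℕ, ∀ b : ℕ → ℝ, (∀ i, |b i| ≤ 2 / 3) → (∀ i < k, b i = 0) → spread φ (d + b) ∈ U := by
  by_contra hh
  push Not at hh
  choose b hb hb0 hbU using hh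
  have := hU.2.2 (fun k => spread φ (d + b k)) (spread φ d) (fun k => ⟨?_, hbU k⟩) (hU.1 hdU) ?_
  · exact this.2 hdU
  · refine mem_space hp hφ hq _ fun i => ?_
    refine (abs_add_le _ _).trans ?_
    linarith [hd i, hb k i]
  · refine tendsto_of_tendsto_of_tendsto_of_le_of_le tendsto_const_nhds tendsto_small
      (fun _ => zero_le) fun k => ?_
    simp only [spread_sub hφ, add_sub_cancel_left]
    exact small hp hφ hq _ k (hb k) (hb0 k)

theorem not_separated (hp : ∀ n, 1 ≤ p n) (hφ : Function.Injective φ)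
    (hq : ∀ i : ℕ, (i : ℝ) ≤ p (φ i)) {U V : Set (ℕ → ℝ)} (hU : IsModOpen (seqModular p) U)
    (hV : IsModOpen (seqModular p) V) (h0 : (0 : ℕ → ℝ) ∈ U)
    (hF : {x | ∃ k c, x = spread φ (pt k c)} ⊆ V) : (U ∩ V).Nonempty := by
  classical
  have hz : spread φ (0 : ℕ → ℝ) = 0 := by
    have := spread_sub hφ (0 : ℕ → ℝ) 0
    simpa using this.symm
  obtain ⟨N, hN⟩ := open_nbhd hp hφ hq hU 0 (fun i => by norm_num) (by rwa [hz])
  let d : (ℕ → Bool) → ℕ → ℝ := fun c i => if i < N then 0 else if c i then 2 / 3 else 0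
  have hd01 : ∀ c i, d c i = 0 ∨ d c i = 2 / 3 := by
    intro c i
    simp only [d]
    split_ifs <;> simp
  have hd : ∀ c i, |d c i| ≤ 2 / 3 := by
    intro c i
    rcases hd01 c i with h | h <;> rw [h] <;> norm_num
  have hdU : ∀ c, spread φ (d c) ∈ U := by
    intro c
    have := hN (d c) (hd c) (fun i hi => by simp [d, hi])
    rwa [zero_add] at this
  let E : ℕ → Set (ℕ → Bool) := fun k => {c | ∀ b : ℕ → ℝ, (∀ i, |b i| ≤ 2 / 3) →
    (∀ i < k, b i = 0) → spread φ (d c + b) ∈ U}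
  have hE : ⋃ k, closure (E k) = univ := by
    refine eq_univ_of_forall fun c => ?_
    obtain ⟨k, hk⟩ := open_nbhd hp hφ hq hU (d c) (hd c) (hdU c)
    exact mem_iUnion.2 ⟨k, subset_closure hk⟩
  obtain ⟨k, c₀, hc₀⟩ := nonempty_interior_of_iUnion_of_closed (fun k => isClosed_closure) hE
  let c : ℕ → ℕ → Bool := fun m i => if i < m then c₀ i else decide ((m + 1) ∣ i)
  have hc : Tendsto c atTop (𝓝 c₀) := by
    refine tendsto_pi_nhds.2 fun i => tendsto_const_nhds.congr' ?_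
    filter_upwards [eventually_gt_atTop i] with m hm
    simp [c, hm]
  obtain ⟨m, hm1, hm2, hm3⟩ := ((hc.eventually (isOpen_interior.mem_nhds hc₀)).and
    ((eventually_ge_atTop k).and (eventually_ge_atTop N))).exists
  have hcl : c m ∈ closure (E k) := interior_subset hm1
  have happ : ∀ M : ℕ, ∃ e ∈ E k, ∀ i < M, e i = c m i := by
    intro M
    obtain ⟨s, hs, hlim⟩ := mem_closure_iff_seq_limit.1 hcl
    have : ∀ᶠ j in atTop, ∀ i ∈ Finset.range M, s j i = c m i := by
      rw [Finset.eventually_all]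
      intro i _
      have := (tendsto_pi_nhds.1 hlim) i
      rwa [nhds_discrete, tendsto_pure] at this
    obtain ⟨j, hj⟩ := this.exists
    exact ⟨s j, hs j, fun i hi => hj i (Finset.mem_range.2 hi)⟩
  choose e heE he using happ
  let f : ℕ → ℝ := pt m fun i => decide (N ≤ i) && c₀ i
  let b : ℕ → ℝ := f - d (c m)
  have hb0 : ∀ i < m, b i = 0 := by
    intro i hi
    simp only [b, f, pt, d, c, Pi.sub_apply, if_pos hi]
    by_cases h : i < N
    · simp [h, not_le.2 h]
    · simp [h, not_lt.1 h]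
  have hb : ∀ i, |b i| ≤ 2 / 3 := by
    intro i
    by_cases hi : i < m
    · rw [hb0 i hi]; norm_num
    · have h2 : ¬ i < N := by omega
      simp only [b, f, pt, d, c, Pi.sub_apply, if_neg hi, if_neg h2, decide_eq_true_eq]
      split_ifs <;> rw [abs_le] <;> constructor <;> norm_num
  by_contra hne
  have hfV : spread φ f ∈ V := hF ⟨_, _, rfl⟩
  have := hV.2.2 (fun M => spread φ (d (e M) + b)) (spread φ f) (fun M => ?_) (hV.1 hfV) ?_
  · exact this.2 hfV
  · have h1 : spread φ (d (e M) + b) ∈ U := heE M b hb fun i hi => hb0 i (by omega)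
    exact ⟨hU.1 h1, fun h2 => hne ⟨_, h1, h2⟩⟩
  · refine tendsto_of_tendsto_of_tendsto_of_le_of_le tendsto_const_nhds tendsto_small
      (fun _ => zero_le) fun M => ?_
    have e1 : d (e M) + b - f = d (e M) - d (c m) := by simp only [b]; abel
    simp only [spread_sub hφ, e1]
    refine small hp hφ hq _ M (fun i => ?_) fun i hi => ?_
    · simp only [Pi.sub_apply]
      rcases hd01 (e M) i with h | h <;> rcases hd01 (c m) i with h' | h' <;> rw [h, h'] <;>
        norm_num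
    · simp only [Pi.sub_apply, d, he M i hi, sub_self]

end Main

/-- The witness. -/
theorem witness (p : ℕ → ℝ) (hp : ∀ n, 1 ≤ p n) (hunb : ¬ BddAbove (Set.range p)) :
    IsConvexModular (seqModular p) ∧ IsLeftContinuous (seqModular p) ∧
      ∃ (F : Set (ℕ → ℝ)) (x : ℕ → ℝ), IsModClosed (seqModular p) F ∧
        x ∈ modularSpace (seqModular p) ∧ x ∉ F ∧
        ∀ U V : Set (ℕ → ℝ), IsModOpen (seqModular p) U → IsModOpen (seqModular p) V →
          x ∈ U → F ⊆ V → (U ∩ V).Nonempty := by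
  have hfreq : ∀ i : ℕ, ∃ᶠ n in atTop, (i : ℝ) ≤ p n := by
    intro i
    by_contra hh
    rw [not_frequently] at hh
    obtain ⟨N, hN⟩ := eventually_atTop.1 hh
    apply hunb
    obtain ⟨B, hB⟩ := ((Finset.range N).finite_toSet.image p).bddAbove
    refine ⟨max B i, ?_⟩
    rintro _ ⟨n, rfl⟩
    by_cases hn : n < N
    · exact le_max_of_le_left (hB ⟨n, by simpa using hn, rfl⟩)
    · exact le_max_of_le_right (not_le.1 (hN n (not_lt.1 hn))).le
  obtain ⟨φ, hφ, hq⟩ := extraction_forall_of_frequently hfreq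
  refine ⟨convexModular p hp, leftContinuous p hp, _, 0, closed_F hp hφ.injective hq, ?_, ?_,
    fun U V hU hV h0 hF => not_separated hp hφ.injective hq hU hV h0 hF⟩
  · refine ⟨1, one_pos, ?_⟩
    rw [smul_zero, ((convexModular p hp).1 0).2 rfl]
    exact ENNReal.zero_lt_top
  · rintro ⟨k, c, h⟩
    have := congrFun h (φ k)
    rw [spread_apply hφ.injective] at this
    simp only [pt, lt_irrefl, if_false, Pi.zero_apply] at this
    split_ifs at this <;> norm_num at this

end Pool.Agent.Lib.MP_106cb8_an
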